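import Pool.Agent.Helper55.CF.Goals

open MeasureTheory Complex
open scoped ContDiff ComplexConjugate Topology

noncomputable section
namespace H74CF
open CF55

/-! ### vanishing orders -/

theorem van_add {n : ℕ} {f g : Z → ℂ} (hf : Van n f) (hg : Van n g) :
    Van n (fun z => f z + g z) := by
  obtain ⟨h1, K, hK⟩ := hf
  obtain ⟨h2, K', hK'⟩ := hg
  refine ⟨h1.add h2, K + K', fun z hz => ?_⟩
  calc ‖f z + g z‖ ≤ ‖f z‖ + ‖g z‖ := norm_add_le _ _
    _ ≤ K * ‖z‖ ^ n + K' * ‖z‖ ^ n := add_le_add (hK z hz) (hK' z hz)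
    _ = (K + K') * ‖z‖ ^ n := by ring

theorem van_mul {m n : ℕ} {f g : Z → ℂ} (hf : Van m f) (hg : Van n g) :
    Van (m + n) (fun z => f z * g z) := by
  obtain ⟨h1, K, hK⟩ := hf
  obtain ⟨h2, K', hK'⟩ := hg
  refine ⟨h1.mul h2, K * K', fun z hz => ?_⟩
  calc ‖f z * g z‖ = ‖f z‖ * ‖g z‖ := norm_mul _ _
    _ ≤ (K * ‖z‖ ^ m) * (K' * ‖z‖ ^ n) :=
        mul_le_mul (hK z hz) (hK' z hz) (norm_nonneg _) ((norm_nonneg _).trans (hK z hz))
    _ = K * K' * ‖z‖ ^ (m + n) := by ring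

theorem van_cmul {n : ℕ} (c : ℂ) {f : Z → ℂ} (hf : Van n f) : Van n (fun z => c * f z) := by
  obtain ⟨h1, K, hK⟩ := hf
  refine ⟨contDiff_const.mul h1, ‖c‖ * K, fun z hz => ?_⟩
  calc ‖c * f z‖ = ‖c‖ * ‖f z‖ := norm_mul _ _
    _ ≤ ‖c‖ * (K * ‖z‖ ^ n) := mul_le_mul_of_nonneg_left (hK z hz) (norm_nonneg _)
    _ = ‖c‖ * K * ‖z‖ ^ n := by ring

theorem van_zero (n : ℕ) : Van n (fun _ : Z => (0 : ℂ)) :=
  ⟨contDiff_const, 0, fun z _ => by simp⟩

theorem van_coord (i : Fin 3) : Van 1 (fun z : Z => z i) :=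
  ⟨contDiff_apply ℂ ℂ i, 1, fun z _ => by simpa using norm_le_pi_norm z i⟩

theorem van_mono {n m : ℕ} (h : m ≤ n) {f : Z → ℂ} (hf : Van n f) : Van m f := by
  obtain ⟨h1, K, hK⟩ := hf
  refine ⟨h1, |K|, fun z hz => ?_⟩
  calc ‖f z‖ ≤ K * ‖z‖ ^ n := hK z hz
    _ ≤ |K| * ‖z‖ ^ n := mul_le_mul_of_nonneg_right (le_abs_self K) (by positivity)
    _ ≤ |K| * ‖z‖ ^ m := mul_le_mul_of_nonneg_left
        (pow_le_pow_of_le_one (norm_nonneg _) hz h) (abs_nonneg _)

theorem van_sum {n : ℕ} {ι : Type} (s : Finset ι) (f : ι → Z → ℂ) (hf : ∀ i ∈ s, Van n (f i)) :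
    Van n (fun z => ∑ i ∈ s, f i z) := by
  classical
  induction s using Finset.induction_on with
  | empty => simpa using van_zero n
  | insert a s ha ih =>
    simp only [Finset.sum_insert ha]
    exact van_add (hf a (Finset.mem_insert_self a s))
      (ih fun i hi => hf i (Finset.mem_insert_of_mem hi))

/-- the vector with the last three coordinates `w` -/
def zv (e : Fin 6 → V) (w : Z) : V := w 0 • e 3 + w 1 • e 4 + w 2 • e 5

theorem zv_eq (e : Fin 6 → V) (w : Z) : zv e w = ∑ i : Fin 3, w i • (![e 3, e 4, e 5] i) := by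
  simp [zv, Fin.sum_univ_three]

theorem van_lin (T : Tri) (e : Fin 6 → V) (a b : V) (w : Z → Z)
    (hw : ∀ i, Van 1 (fun z => w z i)) : Van 1 (fun z => T a b (zv e (w z))) := by
  have h : (fun z => T a b (zv e (w z))) =
      fun z => ∑ i : Fin 3, T a b (![e 3, e 4, e 5] i) * w z i := by
    funext z
    rw [zv_eq]
    simp only [map_sum, map_smul, smul_eq_mul]
    exact Finset.sum_congr rfl fun i _ => mul_comm _ _
  rw [h]
  exact van_sum _ _ fun i _ => van_cmul _ (hw i)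

theorem van_quad (T : Tri) (e : Fin 6 → V) (a : V) (w : Z → Z)
    (hw : ∀ i, Van 1 (fun z => w z i)) : Van 2 (fun z => T a (zv e (w z)) (zv e (w z))) := by
  have h : (fun z => T a (zv e (w z)) (zv e (w z))) =
      fun z => ∑ i : Fin 3, w z i * T a (![e 3, e 4, e 5] i) (zv e (w z)) := by
    funext z
    conv_lhs => rw [show T a (zv e (w z)) = ∑ i : Fin 3, w z i • T a (![e 3, e 4, e 5] i) by
      rw [zv_eq]; simp only [map_sum, map_smul]]
    simp only [LinearMap.sum_apply, LinearMap.smul_apply, smul_eq_mul]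
  rw [h]
  exact van_sum _ _ fun i _ => van_mul (hw i) (van_lin T e a _ w hw)

theorem van_cub (T : Tri) (e : Fin 6 → V) (w : Z → Z)
    (hw : ∀ i, Van 1 (fun z => w z i)) :
    Van 3 (fun z => T (zv e (w z)) (zv e (w z)) (zv e (w z))) := by
  have h : (fun z => T (zv e (w z)) (zv e (w z)) (zv e (w z))) =
      fun z => ∑ i : Fin 3, w z i * T (![e 3, e 4, e 5] i) (zv e (w z)) (zv e (w z)) := by
    funext z
    conv_lhs => rw [show T (zv e (w z)) = ∑ i : Fin 3, w z i • T (![e 3, e 4, e 5] i) by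
      rw [zv_eq]; simp only [map_sum, map_smul]]
    simp only [LinearMap.sum_apply, LinearMap.smul_apply, smul_eq_mul]
  rw [h]
  exact van_sum _ _ fun i _ => van_mul (hw i) (van_quad T e _ w hw)

/-! ### expansions -/

theorem cube_add {T : Tri} (hT : Sym T) (u w : V) :
    T (u + w) (u + w) (u + w) = T u u u + 3 * T u u w + 3 * T u w w + T w w w := by
  simp only [map_add, LinearMap.add_apply]
  rw [hT.s23 u w u, hT.s12 w u u, hT.s23 u w u, hT.s12 w u w, hT.s23 w w u, hT.s12 w u w]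
  ring

theorem chartVec_eq (e : Fin 6 → V) (p : E) :
    chartVec e p = e 0 + ((p.1 • e 1 + p.2.1 • e 2) + zv e p.2.2) := by
  simp only [chartVec, zv]
  abel

theorem sq_expand {T : Tri} (hT : Sym T) (a b c : V) (x y : ℂ) :
    T (x • a + y • b) (x • a + y • b) c =
      x ^ 2 * T a a c + 2 * (x * y) * T a b c + y ^ 2 * T b b c := by
  simp only [map_add, LinearMap.add_apply, map_smul, LinearMap.smul_apply, smul_eq_mul]
  rw [hT.s12 b a c]
  ring

theorem cb_expand {T : Tri} (hT : Sym T) (a b : V) (x y : ℂ) :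
    T (x • a + y • b) (x • a + y • b) (x • a + y • b) =
      x ^ 3 * T a a a + 3 * (x ^ 2 * y) * T a a b + 3 * (x * y ^ 2) * T a b b +
        y ^ 3 * T b b b := by
  rw [cube_add hT]
  simp only [map_smul, LinearMap.smul_apply, smul_eq_mul]
  ring

theorem w_expand {T : Tri} (hT : Sym T) (a b c : V) (x y : ℂ) :
    T ((x • a + y • b) + c) ((x • a + y • b) + c) ((x • a + y • b) + c) =
      (x ^ 3 * T a a a + 3 * (x ^ 2 * y) * T a a b + 3 * (x * y ^ 2) * T a b b +
        y ^ 3 * T b b b) +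
      3 * (x ^ 2 * T a a c + 2 * (x * y) * T a b c + y ^ 2 * T b b c) +
      3 * (x * T a c c + y * T b c c) + T c c c := by
  rw [cube_add hT, cb_expand hT, sq_expand hT]
  simp only [map_add, LinearMap.add_apply, map_smul, LinearMap.smul_apply, smul_eq_mul]

theorem zv_lin (T : Tri) (e : Fin 6 → V) (a b : V) (z : Z) :
    T a b (zv e z) = z 0 * T a b (e 3) + z 1 * T a b (e 4) + z 2 * T a b (e 5) := by
  simp only [zv, map_add, map_smul, smul_eq_mul]

theorem stmtA3 (hT : G_TYPE3) : G_A3 := by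
  intro T e hS hA hG
  refine hT (fun z => 3 / 2 * T (e 1) (zv e z) (zv e z)) (fun z => T (zv e z) (zv e z) (zv e z))
    (van_cmul _ (van_quad T e _ (fun z => z) van_coord)) (van_cub T e (fun z => z) van_coord) ?_
  convert hG using 1
  funext q
  rw [chart, chartVec_eq, cube_add hS, w_expand hS, hA.t0, hA.t0, hA.t0,
    hS.s23 (e 1) (e 1) (e 2), hS.s12 (e 1) (e 2) (e 1), hA.t2, hS.s12 (e 1) (e 2) (e 2), hA.t2,
    hA.t2, hS.s12 (e 1) (e 2), hA.t2, hA.t2, hA.t2, hA.t111, zv_lin T e (e 1) (e 1), hA.t113, hA.t114,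
    hA.t115]
  ring

theorem stmtA5 (hT : G_TYPE5) : G_A5 := by
  intro T e κ hS hA hG
  refine hT κ hA.hκ (fun z => 3 / 2 * T (e 1) (zv e z) (zv e z))
    (fun z => 3 / 2 * T (e 2) (zv e z) (zv e z)) (fun z => T (zv e z) (zv e z) (zv e z))
    (van_cmul _ (van_quad T e _ (fun z => z) van_coord))
    (van_cmul _ (van_quad T e _ (fun z => z) van_coord))
    (van_cub T e (fun z => z) van_coord) ?_
  convert hG using 1
  funext q
  rw [chart, chartVec_eq, cube_add hS, w_expand hS, hA.t0, hA.t0, hA.t0, hA.t111, hA.t112, hA.t122,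
    hA.t222, zv_lin T e (e 1) (e 1), zv_lin T e (e 1) (e 2), zv_lin T e (e 2) (e 2), hA.t113,
    hA.t114, hA.t115, hA.t223, hA.t224, hA.t225, hA.t123, hA.t124, hA.t125, gg5]
  ring

/-- the value of the chart in case 2 -/
theorem chart2 {T : Tri} {e : Fin 6 → V} (hS : Sym T) (hA : A2data T e) (q : E) :
    chart T e q = q.2.1 ^ 2 + q.2.2 0 * q.1 ^ 2 +
      2 * q.1 * q.2.1 * (3 * T (e 1) (e 2) (zv e q.2.2)) +
      2 * (3 / 2 * T (e 1) (zv e q.2.2) (zv e q.2.2)) * q.1 +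
      2 * (3 / 2 * T (e 2) (zv e q.2.2) (zv e q.2.2)) * q.2.1 +
      T (zv e q.2.2) (zv e q.2.2) (zv e q.2.2) := by
  have h00 : T (e 0) (e 0) ((q.1 • e 1 + q.2.1 • e 2) + zv e q.2.2) = 0 := by
    simp only [zv, map_add, map_smul, smul_eq_mul, hA.t00]
    ring
  have h0 : ∀ a b : Fin 6, a ≠ 2 → T (e 0) (e a) (e b) = 0 := fun a b h =>
    hA.t0 a b fun hh => h hh.1
  have h0' : ∀ a b : Fin 6, b ≠ 2 → T (e 0) (e a) (e b) = 0 := fun a b h =>
    hA.t0 a b fun hh => h hh.2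
  have h0w : T (e 0) ((q.1 • e 1 + q.2.1 • e 2) + zv e q.2.2)
      ((q.1 • e 1 + q.2.1 • e 2) + zv e q.2.2) = q.2.1 ^ 2 / 3 := by
    simp only [zv, map_add, map_smul, smul_eq_mul, LinearMap.add_apply, LinearMap.smul_apply,
      h0 1 _ (by decide), h0 3 _ (by decide), h0 4 _ (by decide), h0 5 _ (by decide),
      h0' _ 1 (by decide), h0' _ 3 (by decide), h0' _ 4 (by decide), h0' _ 5 (by decide),
      hA.t022]
    ring
  rw [chart, chartVec_eq, cube_add hS, h00, h0w, hA.t00, w_expand hS, hA.t111, hA.t112, hA.t122,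
    hA.t222, zv_lin T e (e 1) (e 1), zv_lin T e (e 2) (e 2), hA.t113,
    hA.t114, hA.t115, hA.t223, hA.t224, hA.t225]
  ring

theorem bigO_van {n : ℕ} {f : Z → ℂ} (hf : Van n f) :
    (fun p : E => f p.2.2) =O[𝓝 0] fun p => ‖p - 0‖ ^ n := by
  obtain ⟨_, K, hK⟩ := hf
  refine Asymptotics.IsBigO.of_bound |K| ?_
  filter_upwards [Metric.ball_mem_nhds (0 : E) one_pos] with p hp
  rw [mem_ball_zero_iff] at hp
  have h2 : ‖p.2.2‖ ≤ ‖p‖ := (norm_snd_le p.2).trans (norm_snd_le p)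
  calc ‖f p.2.2‖ ≤ K * ‖p.2.2‖ ^ n := hK _ (h2.trans hp.le)
    _ ≤ |K| * ‖p.2.2‖ ^ n := mul_le_mul_of_nonneg_right (le_abs_self K) (by positivity)
    _ ≤ |K| * ‖p‖ ^ n := mul_le_mul_of_nonneg_left
        (pow_le_pow_left₀ (norm_nonneg _) h2 n) (abs_nonneg _)
    _ = |K| * ‖‖p - 0‖ ^ n‖ := by simp

theorem van_at {n : ℕ} {f : Z → ℂ} (hf : Van (n + 1) f) : f 0 = 0 := by
  obtain ⟨_, K, hK⟩ := hf
  have h := hK 0 (by simp)
  simpa using h

theorem stmtA2 (hC : G_CHG) (hT : G_TYPE2) : G_A2 := by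
  intro T e hS hA hG
  set m : Z → ℂ := fun z => 3 * T (e 1) (e 2) (zv e z) with hm
  set z' : Z → Z := fun z => ![z 0 + m z ^ 2, z 1, z 2] with hz'
  set q1 : Z → ℂ := fun z => 3 / 2 * T (e 1) (zv e z) (zv e z) with hq1
  set q5 : Z → ℂ := fun z => 3 / 2 * T (e 2) (zv e z) (zv e z) with hq5
  set c : Z → ℂ := fun z => T (zv e z) (zv e z) (zv e z) with hc
  have vm : Van 1 m := van_cmul _ (van_lin T e _ _ (fun z => z) van_coord)
  have vz' : ∀ i, Van 1 (fun z => z' z i) := by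
    intro i
    fin_cases i
    · have h1 : Van 1 (fun z : Z => z 0 + m z * m z) :=
        van_add (van_coord 0) (van_mono (by norm_num) (van_mul vm vm))
      simpa [hz', sq] using h1
    · simpa [hz'] using van_coord 1
    · simpa [hz'] using van_coord 2
  have vq1 : Van 2 (fun z => q1 (z' z)) := van_cmul _ (van_quad T e _ z' vz')
  have vq5 : Van 2 (fun z => q5 (z' z)) := van_cmul _ (van_quad T e _ z' vz')
  have vc : Van 3 (fun z => c (z' z)) := van_cub T e z' vz'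
  have mz' : ∀ z, m (z' z) = m z := by
    intro z
    simp only [hm, zv_lin, hA.t123, hz']
    simp
  refine hT (fun z => q1 (z' z) + (-1) * (m z * q5 (z' z)))
    (fun z => c (z' z) + (-1) * (q5 (z' z) * q5 (z' z)))
    (van_add vq1 (van_cmul _ (van_mono (by norm_num) (van_mul vm vq5))))
    (van_add vc (van_cmul _ (van_mono (by norm_num) (van_mul vq5 vq5)))) ?_
  set R : E → E := fun p => (0, -(m p.2.2 * p.1 + q5 (z' p.2.2)), ![m p.2.2 ^ 2, 0, 0]) with hR
  have hRO : R =O[𝓝 0] fun p => ‖p - 0‖ ^ 2 := by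
    refine Asymptotics.IsBigO.prod_left (Asymptotics.isBigO_zero _ _)
      (Asymptotics.IsBigO.prod_left ?_ ?_)
    · refine Asymptotics.IsBigO.neg_left (Asymptotics.IsBigO.add ?_ (bigO_van vq5))
      have h1 := bigO_van vm
      have h2 : (fun p : E => p.1) =O[𝓝 0] fun p => ‖p - 0‖ ^ 1 := by
        refine Asymptotics.IsBigO.of_bound 1 (Filter.Eventually.of_forall fun p => ?_)
        simpa using norm_fst_le p
      refine (h1.mul h2).trans (Asymptotics.IsBigO.of_bound 1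
        (Filter.Eventually.of_forall fun p => ?_))
      simp [sq]
    · rw [Asymptotics.isBigO_pi]
      intro i
      fin_cases i
      · have h1 := bigO_van (van_mul vm vm)
        simpa [sq] using h1
      · simpa using Asymptotics.isBigO_zero _ _
      · simpa using Asymptotics.isBigO_zero _ _
  have hΘ : ∀ p : E, (fun p : E => p + R p) p =
      (p.1, p.2.1 - m p.2.2 * p.1 - q5 (z' p.2.2), z' p.2.2) := by
    intro p
    refine Prod.ext (by simp [hR]) (Prod.ext (by simp [hR]; ring) ?_)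
    funext i
    fin_cases i <;> simp [hR, hz']
  have cm : ContDiff ℝ ∞ m := vm.1.restrict_scalars ℝ
  have cq : ContDiff ℝ ∞ (fun z => q5 (z' z)) := vq5.1.restrict_scalars ℝ
  have cp : ContDiff ℝ ∞ (fun p : E => p.2.2) := contDiff_snd.comp contDiff_snd
  refine hC (chart T e) _ (fun p => p + R p) (ContinuousLinearEquiv.refl ℝ E) hG ?_ ?_ ?_ ?_
  · have e1 : m 0 = 0 := by simp [hm, zv]
    have e2 : q5 (z' 0) = 0 := van_at vq5
    have h0 : R 0 = 0 := by
      refine Prod.ext (by simp [hR]) (Prod.ext (by simp [hR, e1, e2]) ?_)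
      funext i
      fin_cases i <;> simp [hR, e1]
    simp [h0]
  · refine contDiffAt_id.add (ContDiff.contDiffAt ?_)
    refine contDiff_const.prodMk (ContDiff.prodMk ?_ ?_)
    · exact (((cm.comp cp).mul contDiff_fst).add (cq.comp cp)).neg
    · rw [contDiff_pi]
      intro i
      fin_cases i
      · simpa using (cm.comp cp).pow 2
      · simpa using contDiff_const
      · simpa using contDiff_const
  · have h1 : HasFDerivAt R (0 : E →L[ℝ] E) 0 := hRO.hasFDerivAt (by norm_num)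
    have h2 := (hasFDerivAt_id (𝕜 := ℝ) (0 : E)).add h1
    rw [add_zero] at h2
    exact h2
  · refine Filter.Eventually.of_forall fun p => ?_
    have h1 := hΘ p
    simp only at h1
    rw [h1, chart2 hS hA]
    have h2 := mz' p.2.2
    have h3 : z' p.2.2 0 = p.2.2 0 + m p.2.2 ^ 2 := by simp [hz']
    simp only [h3]
    change _ = (p.2.1 - m p.2.2 * p.1 - q5 (z' p.2.2)) ^ 2 + (p.2.2 0 + m p.2.2 ^ 2) * p.1 ^ 2 +
      2 * p.1 * (p.2.1 - m p.2.2 * p.1 - q5 (z' p.2.2)) * m (z' p.2.2) +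
      2 * q1 (z' p.2.2) * p.1 +
      2 * q5 (z' p.2.2) * (p.2.1 - m p.2.2 * p.1 - q5 (z' p.2.2)) + c (z' p.2.2)
    rw [h2]
    ring

end H74CF
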